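import Pool.Agent.P8H60.LocalLoop

/-!
# The local loop lemma for odd cycles under absorption (full positive answer)
-/

namespace Pool.Agent.Results.MP_511665_al.LocalLoopOddCycle

universe u

/-- The neighbourhood `a^{+R}`: all `b` with `(a, b) ∈ R`. -/
def nbhd {A : Type u} (R : A → A → Prop) (a : A) : Set A := {b | R a b}

/-- `(a 0, …, a (l-1))` is an odd cycle of `R`: `l ≥ 3` is odd, the entries are distinct, and each
entry is `R`-related to the cyclically next one. -/
def IsOddCycle {A : Type u} (R : A → A → Prop) {l : ℕ} (a : Fin l → A) : Prop :=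
  3 ≤ l ∧ Odd l ∧ Function.Injective a ∧
    ∀ i j : Fin l, (j : ℕ) = ((i : ℕ) + 1) % l → R (a i) (a j)

/-- `f` is idempotent. -/
def IsIdempotentOp {A : Type u} {n : ℕ} (f : (Fin n → A) → A) : Prop :=
  ∀ x : A, f (fun _ => x) = x

/-- `f` is compatible with `R`. -/
def IsCompatible {A : Type u} {n : ℕ} (f : (Fin n → A) → A) (R : A → A → Prop) : Prop :=
  ∀ x y : Fin n → A, (∀ i, R (x i) (y i)) → R (f x) (f y)

/-- `B` absorbs `C` with respect to `f`: for every position `j`, all `b` with entries in `B` and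
all `c ∈ C`, replacing the `j`-th entry of `b` by `c` gives a value of `f` in `B`. -/
def Absorbs {A : Type u} {n : ℕ} (f : (Fin n → A) → A) (B C : Set A) : Prop :=
  ∀ (j : Fin n) (b : Fin n → A), (∀ i, b i ∈ B) → ∀ c ∈ C, f (Function.update b j c) ∈ B

/-- Let `R` be a symmetric relation on a nonempty set `A` (possibly infinite) containing an odd
cycle `(a 0, …, a (l-1))`. If an idempotent operation `f` of arity `n ≥ 1` is compatible with `R`
and the neighbourhood of `a 0` absorbs `{a 0}` with respect to `f`, then `R` has a loop. -/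
theorem result
    {A : Type u} [Nonempty A] (R : A → A → Prop) (hR : ∀ x y, R x y → R y x)
    {l : ℕ} [NeZero l] (a : Fin l → A) (ha : IsOddCycle R a)
    {n : ℕ} (_hn : 1 ≤ n) (f : (Fin n → A) → A)
    (hid : IsIdempotentOp f) (hcomp : IsCompatible f R)
    (habs : Absorbs f (nbhd R (a 0)) {a 0}) :
    ∃ x : A, R x x := by
  obtain ⟨_, hodd, _, hcyc⟩ := ha
  have hl : 0 < l := Nat.pos_of_ne_zero (NeZero.ne l)
  refine Pool.Agent.P8H60.LocalLoop.local_loop (n := n) (f := f) (z := a 0) (l := l)
    hR hid hcomp (fun j b hb => habs j b hb (a 0) rfl) hodd ?_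
  refine ⟨fun t => a ⟨t % l, Nat.mod_lt _ hl⟩, ?_, ?_, ?_⟩
  · congr 1
  · apply congrArg a
    apply Fin.ext
    change l % l = 0 % l
    rw [Nat.mod_self, Nat.zero_mod]
  · intro t _
    apply hcyc
    simp

end Pool.Agent.Results.MP_511665_al.LocalLoopOddCycle
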